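import Pool.Agent.W336.LS.Iterate

set_option autoImplicit false

/-!
# The threshold constant for linear sofic groups is 1/2, over every field
-/

namespace Pool.Agent.Results.MP_7f7a01_al.HalfThreshold

open Module Pool.Agent.W336.LS

universe u

/-- The normalised rank distance `rank (A - B) / n` on `GL(n, K)`. -/
noncomputable def dRank {K : Type u} [Field K] {n : ℕ} (A B : GL (Fin n) K) : ℝ :=
  (((A : Matrix (Fin n) (Fin n) K) - (B : Matrix (Fin n) (Fin n) K)).rank : ℝ) / n

/-- The group `G` is `ε`-approximable by the groups `GL(n, K)` with the normalised rank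
distance: for all finite `F ⊆ G` and `δ > 0` there are `n ≥ 1` and a map `φ : G → GL(n, K)` with
`d(φ(g)φ(h), φ(gh)) < δ` for `g, h ∈ F` and `d(φ(g), φ(h)) > ε - δ` for distinct `g, h ∈ F`. -/
def Approximable (K : Type u) [Field K] (ε : ℝ) (G : Type) [Group G] : Prop :=
  ∀ (F : Finset G) (δ : ℝ), 0 < δ → ∃ (n : ℕ) (_ : 0 < n) (φ : G → GL (Fin n) K),
    (∀ g ∈ F, ∀ h ∈ F, dRank (φ g * φ h) (φ (g * h)) < δ) ∧
    (∀ g ∈ F, ∀ h ∈ F, g ≠ h → ε - δ < dRank (φ g) (φ h))

variable {K : Type u} [Field K]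

/-- The class is decreasing in `ε`. -/
lemma Approximable.mono {ε ε' : ℝ} (h : ε' ≤ ε) {G : Type} [Group G]
    (hG : Approximable K ε G) : Approximable K ε' G := by
  intro F δ hδ
  obtain ⟨n, hn, φ, h1, h2⟩ := hG F δ hδ
  exact ⟨n, hn, φ, h1, fun g hg k hk hgk => by linarith [h2 g hg k hk hgk]⟩

lemma dRank_eq_dd {V : Type u} [AddCommGroup V] [Module K V] {n : ℕ} (b : Basis (Fin n) K V)
    (x y : (End K V)ˣ) : dRank (toMat b x) (toMat b y) = dd (x : End K V) (y : End K V) := by
  unfold dRank dd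
  rw [toMat_rank, finrank_eq_card_basis b, Fintype.card_fin]

lemma dd_eq_dRank {n : ℕ} (A B : GL (Fin n) K) :
    dd (((toMat (Pi.basisFun K (Fin n))).symm A : (End K (Fin n → K))ˣ) : End K (Fin n → K))
      (((toMat (Pi.basisFun K (Fin n))).symm B : (End K (Fin n → K))ˣ) : End K (Fin n → K)) =
      dRank A B := by
  rw [← dRank_eq_dd (Pi.basisFun K (Fin n)), MulEquiv.apply_symm_apply,
    MulEquiv.apply_symm_apply]

/-- It suffices to find approximations by linear automorphisms of finite-dimensional spaces. -/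
lemma approximable_of_linear {ε : ℝ} {G : Type} [Group G]
    (h : ∀ (F : Finset G) (δ : ℝ), 0 < δ → ∃ (V : Type u) (_ : AddCommGroup V) (_ : Module K V)
      (_ : FiniteDimensional K V) (_ : Nontrivial V) (φ : G → (End K V)ˣ),
      (∀ g ∈ F, ∀ h ∈ F, dd ((φ g * φ h : (End K V)ˣ) : End K V) (φ (g * h) : End K V) < δ) ∧
      (∀ g ∈ F, ∀ h ∈ F, g ≠ h → ε - δ < dd (φ g : End K V) (φ h : End K V))) :
    Approximable K ε G := by
  intro F δ hδ
  obtain ⟨V, i1, i2, i3, i4, φ, h1, h2⟩ := h F δ hδ
  refine ⟨finrank K V, Module.finrank_pos, fun g => toMat (finBasis K V) (φ g), ?_, ?_⟩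
  · intro g hg k hk
    change dRank (toMat (finBasis K V) (φ g) * toMat (finBasis K V) (φ k))
      (toMat (finBasis K V) (φ (g * k))) < δ
    rw [← map_mul, dRank_eq_dd]
    exact h1 g hg k hk
  · intro g hg k hk hgk
    change _ < dRank (toMat (finBasis K V) (φ g)) (toMat (finBasis K V) (φ k))
    rw [dRank_eq_dd]
    exact h2 g hg k hk hgk

/-- **Amplification.** -/
theorem approximable_half {ε : ℝ} (hε : 0 < ε) {G : Type} [Group G]
    (hG : Approximable K ε G) : Approximable K (1 / 2) G := by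
  apply approximable_of_linear
  intro F δ hδ
  set c : ℝ := min (ε / 2) 1 with hc
  have hc0 : 0 < c := lt_min (by linarith) one_pos
  have hc1 : c ≤ 1 := min_le_right _ _
  have hc2 : c ≤ ε / 2 := min_le_left _ _
  obtain ⟨L, hL0, hL⟩ := exists_amp (K := K) c hc0 hc1 (δ / 2) (by linarith)
  set δ' : ℝ := min (ε / 2) (δ / L) with hδ'
  have hδ'0 : 0 < δ' := lt_min (by linarith) (div_pos hδ hL0)
  obtain ⟨n, hn, φ, h1, h2⟩ := hG F δ' hδ'0
  have : Nonempty (Fin n) := ⟨⟨0, hn⟩⟩
  obtain ⟨V', i1, i2, i3, i4, T, hT1, hT2⟩ := hL (Fin n → K)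
  let ψ : G → (End K (Fin n → K))ˣ := fun g => (toMat (Pi.basisFun K (Fin n))).symm (φ g)
  refine ⟨V', i1, i2, i3, i4, fun g => T (ψ g), ?_, ?_⟩
  · intro g hg k hk
    change dd ((T (ψ g) * T (ψ k) : (End K V')ˣ) : End K V') (T (ψ (g * k)) : End K V') < δ
    rw [← map_mul]
    refine lt_of_le_of_lt (hT1 _ _) ?_
    have h3 : ψ g * ψ k = (toMat (Pi.basisFun K (Fin n))).symm (φ g * φ k) := by
      rw [map_mul]
    rw [h3]
    change L * dd (((toMat (Pi.basisFun K (Fin n))).symm (φ g * φ k) :
      (End K (Fin n → K))ˣ) : End K (Fin n → K))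
      (((toMat (Pi.basisFun K (Fin n))).symm (φ (g * k)) :
      (End K (Fin n → K))ˣ) : End K (Fin n → K)) < δ
    rw [dd_eq_dRank]
    have h4 := h1 g hg k hk
    have h5 : δ' ≤ δ / L := min_le_right _ _
    calc L * dRank (φ g * φ k) (φ (g * k)) < L * δ' := mul_lt_mul_of_pos_left h4 hL0
      _ ≤ L * (δ / L) := mul_le_mul_of_nonneg_left h5 hL0.le
      _ = δ := by field_simp
  · intro g hg k hk hgk
    have h3 := h2 g hg k hk hgk
    have h4 : δ' ≤ ε / 2 := min_le_left _ _
    have h5 := hT2 (ψ g) (ψ k) (by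
      change c ≤ dd (((toMat (Pi.basisFun K (Fin n))).symm (φ g) :
        (End K (Fin n → K))ˣ) : End K (Fin n → K))
        (((toMat (Pi.basisFun K (Fin n))).symm (φ k) :
        (End K (Fin n → K))ˣ) : End K (Fin n → K))
      rw [dd_eq_dRank]
      linarith)
    linarith

/-! ### The regular representation of an elementary abelian 2-group -/

/-- right translation operators -/
def reg (K : Type u) [Field K] (k : ℕ) :
    (Fin k → ℤˣ) →* (End K ((Fin k → ℤˣ) → K))ˣ where
  toFun g :=
    ⟨LinearMap.funLeft K K (fun x => x * g), LinearMap.funLeft K K (fun x => x * g⁻¹), by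
      apply LinearMap.ext; intro f; funext x
      change f (x * g * g⁻¹) = f x
      rw [mul_inv_cancel_right], by
      apply LinearMap.ext; intro f; funext x
      change f (x * g⁻¹ * g) = f x
      rw [inv_mul_cancel_right]⟩
  map_one' := by
    apply Units.ext; apply LinearMap.ext; intro f; funext x
    change f (x * 1) = f x
    rw [mul_one]
  map_mul' g h := by
    apply Units.ext; apply LinearMap.ext; intro f; funext x
    change f (x * (g * h)) = f (x * g * h)
    rw [mul_assoc]

lemma reg_apply (k : ℕ) (g : Fin k → ℤˣ) (f : (Fin k → ℤˣ) → K) (x : Fin k → ℤˣ) :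
    (reg K k g : End K ((Fin k → ℤˣ) → K)) f x = f (x * g) := rfl

lemma reg_dist (k : ℕ) {g h : Fin k → ℤˣ} (hgh : g ≠ h) :
    1 / 2 ≤ dd (reg K k g : End K ((Fin k → ℤˣ) → K)) (reg K k h : End K ((Fin k → ℤˣ) → K)) := by
  classical
  obtain ⟨j, hj⟩ := Function.ne_iff.1 hgh
  set N := finrank K ((Fin k → ℤˣ) → K) with hN
  have hN0 : (0 : ℝ) < N := by exact_mod_cast Module.finrank_pos
  -- functions vanishing where `x j = t`
  let A : ℤˣ → Submodule K ((Fin k → ℤˣ) → K) := fun t =>
    { carrier := {f | ∀ x, x j = t → f x = 0}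
      add_mem' := fun {a b} ha hb x hx => by rw [Pi.add_apply, ha x hx, hb x hx, add_zero]
      zero_mem' := fun x _ => rfl
      smul_mem' := fun c f hf x hx => by rw [Pi.smul_apply, hf x hx, smul_zero] }
  set S : End K ((Fin k → ℤˣ) → K) := (reg K k g : End K ((Fin k → ℤˣ) → K)) -
    (reg K k h : End K ((Fin k → ℤˣ) → K)) with hS
  have hker : ∀ f, f ∈ LinearMap.ker S → ∀ x, f (x * g) = f (x * h) := by
    intro f hf x
    have := congrFun (LinearMap.mem_ker.1 hf) x
    rw [hS, LinearMap.sub_apply, Pi.sub_apply, reg_apply, reg_apply, Pi.zero_apply,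
      sub_eq_zero] at this
    exact this
  have key : ∀ t a b c : ℤˣ, b ≠ c → ¬ a = t → a * b⁻¹ * c = t := by decide
  have hdis : ∀ t, Disjoint (LinearMap.ker S) (A t) := by
    intro t
    rw [Submodule.disjoint_def]
    intro f hf hft
    funext x
    by_cases hx : x j = t
    · exact hft x hx
    · have h1 := hker f hf (x * g⁻¹)
      rw [inv_mul_cancel_right] at h1
      rw [h1]
      apply hft
      rw [Pi.mul_apply, Pi.mul_apply, Pi.inv_apply]
      exact key t (x j) (g j) (h j) hj hx
  have hsup : (⊤ : Submodule K ((Fin k → ℤˣ) → K)) ≤ A 1 ⊔ A (-1) := by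
    intro f _
    rw [Submodule.mem_sup]
    refine ⟨fun x => if x j = 1 then 0 else f x, ?_, fun x => if x j = 1 then f x else 0, ?_, ?_⟩
    · intro x hx; simp [hx]
    · intro x hx
      have : ¬ ((-1 : ℤˣ) = 1) := by decide
      simp [hx, this]
    · funext x
      by_cases hx : x j = 1 <;> simp [hx]
  have h1 := Submodule.finrank_add_finrank_le_of_disjoint (hdis 1)
  have h2 := Submodule.finrank_add_finrank_le_of_disjoint (hdis (-1))
  have h3 : N ≤ finrank K (A 1) + finrank K (A (-1)) := by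
    have h4 := Submodule.finrank_mono hsup
    rw [finrank_top] at h4
    exact h4.trans (Submodule.finrank_add_le_finrank_add_finrank _ _)
  have h5 := rk_add_ker S
  have h6 : N ≤ 2 * rk S := by omega
  unfold dd
  rw [div_le_div_iff₀ (by norm_num) hN0]
  have h7 : (N : ℝ) ≤ 2 * rk S := by exact_mod_cast h6
  linarith

lemma approximable_elementary (k : ℕ) : Approximable K (1 / 2) (Fin k → ℤˣ) := by
  apply approximable_of_linear
  intro F δ hδ
  refine ⟨(Fin k → ℤˣ) → K, inferInstance, inferInstance, inferInstance, inferInstance,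
    fun g => reg K k g, ?_, ?_⟩
  · intro g _ h _
    rw [← map_mul]
    unfold dd
    rw [sub_self, rk_zero]
    simpa using hδ
  · intro g _ h _ hgh
    have := reg_dist (K := K) k hgh
    change 1 / 2 - δ < dd _ _
    linarith

/-! ### Elementary abelian 2-groups are not `ε`-approximable for `ε > 1/2` -/

lemma rk_le_restrict {V : Type u} [AddCommGroup V] [Module K V] [FiniteDimensional K V]
    (T : End K V) (U : Submodule K V) (hU : ∀ x ∈ U, T x ∈ U) :
    rk T + finrank K U ≤ rk (T.restrict hU) + finrank K V := by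
  have h1 := rk_add_ker T
  have h2 := rk_add_ker (T.restrict hU)
  have h3 : finrank K (LinearMap.ker (T.restrict hU)) ≤ finrank K (LinearMap.ker T) := by
    let Φ : LinearMap.ker (T.restrict hU) →ₗ[K] LinearMap.ker T :=
      { toFun := fun x => ⟨x.1.1, by
          have := congrArg Subtype.val (LinearMap.mem_ker.1 x.2)
          rw [LinearMap.mem_ker]
          exact this⟩
        map_add' := fun x y => rfl
        map_smul' := fun c x => rfl }
    apply LinearMap.finrank_le_finrank_of_injective (f := Φ)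
    intro x y hxy
    apply Subtype.ext; apply Subtype.ext
    exact congrArg (fun z => (z.1 : V)) hxy
  omega

lemma not_approximable_elementary (k : ℕ) (hk : 1 ≤ k) (ε : ℝ)
    (hε : (2 ^ k : ℝ) / (2 * (2 ^ k - 1)) < ε) : ¬ Approximable K ε (Fin k → ℤˣ) := by
  classical
  intro hG
  set θ : ℝ := (2 ^ k : ℝ) / (2 * (2 ^ k - 1)) with hθ
  set δ : ℝ := (ε - θ) / (2 * (4 ^ k + 1)) with hδ
  have h4k : (0 : ℝ) < 4 ^ k := by positivity
  have hδ0 : 0 < δ := div_pos (by linarith) (by positivity)
  obtain ⟨n, hn, φ, h1, h2⟩ := hG Finset.univ δ hδ0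
  let a : (Fin k → ℤˣ) → (End K (Fin n → K))ˣ :=
    fun g => (toMat (Pi.basisFun K (Fin n))).symm (φ g)
  let D : (Fin k → ℤˣ) × (Fin k → ℤˣ) → End K (Fin n → K) := fun p =>
    (a p.1 : End K (Fin n → K)) * (a p.2 : End K (Fin n → K)) -
      (a (p.1 * p.2) : End K (Fin n → K))
  have hnr : (0 : ℝ) < n := by exact_mod_cast hn
  have hfn : finrank K (Fin n → K) = n := by simp
  have hD : ∀ p, (rk (D p) : ℝ) < δ * n := by
    intro p
    have h3 := h1 p.1 (Finset.mem_univ _) p.2 (Finset.mem_univ _)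
    rw [← dd_eq_dRank, map_mul] at h3
    unfold dd at h3
    rw [hfn, div_lt_iff₀ hnr] at h3
    exact h3
  -- the invariant subspace
  let U : Submodule K (Fin n → K) := ⨅ p, LinearMap.ker (D p)
  have hUmem : ∀ x, x ∈ U ↔ ∀ g h, (a g : End K (Fin n → K)) ((a h : End K (Fin n → K)) x) =
      (a (g * h) : End K (Fin n → K)) x := by
    intro x
    simp only [U, Submodule.mem_iInf, LinearMap.mem_ker, D, Prod.forall, LinearMap.sub_apply,
      sub_eq_zero, Module.End.mul_apply]
  have hUinv : ∀ g, ∀ x ∈ U, (a g : End K (Fin n → K)) x ∈ U := by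
    intro g x hx
    rw [hUmem] at hx ⊢
    intro u v
    rw [hx v g, hx u (v * g), hx (u * v) g, mul_assoc]
  -- codimension
  have hcodim : ∀ s : Finset ((Fin k → ℤˣ) × (Fin k → ℤˣ)),
      (n : ℝ) ≤ finrank K (⨅ p ∈ s, LinearMap.ker (D p) : Submodule K (Fin n → K)) +
        s.card * (δ * n) := by
    intro s
    induction s using Finset.induction_on with
    | empty =>
      have h3 : (⨅ p ∈ (∅ : Finset ((Fin k → ℤˣ) × (Fin k → ℤˣ))), LinearMap.ker (D p) :
        Submodule K (Fin n → K)) = ⊤ := by simp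
      rw [h3, finrank_top, hfn]
      simp
    | insert p s hp ih =>
      rw [Finset.iInf_insert, Finset.card_insert_of_notMem hp]
      have h3 := Submodule.finrank_sup_add_finrank_inf_eq (LinearMap.ker (D p))
        (⨅ p ∈ s, LinearMap.ker (D p))
      have h4 : finrank K (LinearMap.ker (D p) ⊔ ⨅ p ∈ s, LinearMap.ker (D p) :
        Submodule K (Fin n → K)) ≤ n := (Submodule.finrank_le _).trans (le_of_eq hfn)
      have h5 := rk_add_ker (D p)
      rw [hfn] at h5
      have h6 := hD p
      have h7 : (finrank K (LinearMap.ker (D p)) : ℝ) +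
          finrank K (⨅ p ∈ s, LinearMap.ker (D p) : Submodule K (Fin n → K)) ≤ n +
          finrank K (LinearMap.ker (D p) ⊓ ⨅ p ∈ s, LinearMap.ker (D p) :
            Submodule K (Fin n → K)) := by
        have : finrank K (LinearMap.ker (D p)) +
          finrank K (⨅ p ∈ s, LinearMap.ker (D p) : Submodule K (Fin n → K)) ≤ n +
          finrank K (LinearMap.ker (D p) ⊓ ⨅ p ∈ s, LinearMap.ker (D p) :
            Submodule K (Fin n → K)) := by omega
        exact_mod_cast this
      have h8 : (rk (D p) : ℝ) + finrank K (LinearMap.ker (D p)) = n := by exact_mod_cast h5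
      push_cast
      nlinarith
  have hUcodim : (n : ℝ) ≤ finrank K U + 4 ^ k * (δ * n) := by
    have h3 := hcodim Finset.univ
    have h4 : (⨅ p ∈ (Finset.univ : Finset ((Fin k → ℤˣ) × (Fin k → ℤˣ))),
        LinearMap.ker (D p) : Submodule K (Fin n → K)) = U := by simp [U]
    rw [h4] at h3
    have h5 : ((Finset.univ : Finset ((Fin k → ℤˣ) × (Fin k → ℤˣ))).card : ℝ) = 4 ^ k := by
      rw [Finset.card_univ, Fintype.card_prod]
      simp only [Fintype.card_pi, Fintype.card_units_int, Finset.prod_const, Finset.card_univ,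
        Fintype.card_fin]
      push_cast
      rw [← mul_pow]
      norm_num
    rwa [h5] at h3
  -- the exact representation on `U`
  have ha1 : ∀ x ∈ U, (a 1 : End K (Fin n → K)) x = x := by
    intro x hx
    have h3 := (hUmem x).1 hx 1 1
    rw [mul_one] at h3
    have h4 := congrArg (fun y => (((a 1)⁻¹ : (End K (Fin n → K))ˣ) : End K (Fin n → K)) y) h3
    rwa [← Module.End.mul_apply, Units.inv_mul, Module.End.one_apply, ← Module.End.mul_apply,
      Units.inv_mul, Module.End.one_apply] at h4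
  let ρ : (Fin k → ℤˣ) →* End K U :=
    { toFun := fun g => (a g : End K (Fin n → K)).restrict (hUinv g)
      map_one' := by
        apply LinearMap.ext; intro x; apply Subtype.ext
        exact ha1 x x.2
      map_mul' := fun g h => by
        apply LinearMap.ext; intro x; apply Subtype.ext
        exact ((hUmem x).1 x.2 g h).symm }
  obtain ⟨g, hg1, hg⟩ := exists_small k hk ρ
  have hinv : ∀ x ∈ U, ((a g : End K (Fin n → K)) - (a 1 : End K (Fin n → K))) x ∈ U := by
    intro x hx
    exact U.sub_mem (hUinv g x hx) (hUinv 1 x hx)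
  have h3 := rk_le_restrict ((a g : End K (Fin n → K)) - (a 1 : End K (Fin n → K))) U hinv
  have h4 : ((a g : End K (Fin n → K)) - (a 1 : End K (Fin n → K))).restrict hinv = ρ g - 1 := by
    apply LinearMap.ext; intro x; apply Subtype.ext
    change (a g : End K (Fin n → K)) x - (a 1 : End K (Fin n → K)) x = _
    rw [ha1 x x.2]
    rfl
  rw [h4, hfn] at h3
  have h5 := h2 g (Finset.mem_univ _) 1 (Finset.mem_univ _) hg1
  rw [← dd_eq_dRank] at h5
  unfold dd at h5
  rw [hfn, lt_div_iff₀ hnr] at h5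
  have h6 : (rk ((a g : End K (Fin n → K)) - (a 1 : End K (Fin n → K))) : ℝ) + finrank K U ≤
      rk (ρ g - 1) + n := by exact_mod_cast h3
  have h7 : (finrank K U : ℝ) ≤ n := by
    have := Submodule.finrank_le U
    rw [hfn] at this
    exact_mod_cast this
  have hk2 : (2 : ℝ) ≤ 2 ^ k := by
    calc (2 : ℝ) = 2 ^ 1 := by norm_num
      _ ≤ 2 ^ k := pow_le_pow_right₀ (by norm_num) hk
  have h8 : 2 * ((2 : ℝ) ^ k - 1) * rk (ρ g - 1) ≤ 2 ^ k * finrank K U := by
    have h9 : 1 ≤ 2 ^ k := Nat.one_le_two_pow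
    have : ((2 * (2 ^ k - 1) * rk (ρ g - 1) : ℕ) : ℝ) ≤ ((2 ^ k * finrank K U : ℕ) : ℝ) := by
      exact_mod_cast hg
    push_cast [Nat.cast_sub h9] at this
    exact this
  have h10 : (rk (ρ g - 1) : ℝ) ≤ θ * n := by
    rw [hθ, div_mul_eq_mul_div, le_div_iff₀ (by linarith)]
    nlinarith
  have h11 : δ * (2 * (4 ^ k + 1)) = ε - θ := by
    rw [hδ]; field_simp
  change (ε - δ) * n < (rk ((a g : End K (Fin n → K)) - (a 1 : End K (Fin n → K))) : ℝ) at h5
  nlinarith

/-- **Theorem.** Let `K` be any field and `ε > 0`. The `ε`-approximable countable groups over `K`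
are exactly the linear sofic groups over `K` (the case `ε = 1/4`) if and only if `ε ≤ 1/2`. -/
theorem result (K : Type u) [Field K] (ε : ℝ) (h0 : 0 < ε) :
    (∀ (G : Type) [Group G] [Countable G], Approximable K ε G ↔ Approximable K (1 / 4) G) ↔
      ε ≤ 1 / 2 := by
  constructor
  · intro h
    by_contra hcon
    push Not at hcon
    -- choose `k` with `2^k / (2 (2^k - 1)) < ε`
    obtain ⟨k, hk⟩ : ∃ k : ℕ, 1 / (2 * ε - 1) + 1 < (2 : ℝ) ^ k :=
      pow_unbounded_of_one_lt _ (by norm_num)
    have hpos : 0 < 2 * ε - 1 := by linarith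
    have hk1 : 1 < (2 : ℝ) ^ k := by
      have : 0 < 1 / (2 * ε - 1) := by positivity
      linarith
    have hk0 : 1 ≤ k := by
      rcases Nat.eq_zero_or_pos k with h2 | h2
      · rw [h2, pow_zero] at hk1
        exact absurd hk1 (lt_irrefl _)
      · exact h2
    have h3 : (2 ^ k : ℝ) / (2 * (2 ^ k - 1)) < ε := by
      rw [div_lt_iff₀ (by linarith)]
      have h4 : 1 / (2 * ε - 1) < (2 : ℝ) ^ k - 1 := by linarith
      rw [div_lt_iff₀ hpos] at h4
      nlinarith
    apply not_approximable_elementary (K := K) k hk0 ε h3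
    rw [h]
    exact (approximable_elementary k).mono (by norm_num)
  · intro h G _ _
    constructor
    · intro hG
      exact (approximable_half h0 hG).mono (by norm_num)
    · intro hG
      exact (approximable_half (by norm_num) hG).mono h

end Pool.Agent.Results.MP_7f7a01_al.HalfThreshold
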